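import Mathlib
import Pool.Prelude.Def_F_c31e40fa
import Pool.Agent.Q259.FR.D

set_option autoImplicit false

open Filter Topology Set Metric MeasureTheory Complex N62a1eb23

namespace Pool.Agent.Results.MP_b511e9_an.RatesUnderBounds

open Pool.Agent.H713R2

/-- The angles `t ∈ (0, 2π]` of the external rays landing at distance less than `r` from `c₀`. Up to
the factor `2π` its length is the harmonic measure (from infinity) of the disc of radius `r`. -/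
def angles (ψ : ℂ → ℂ) (c₀ : ℂ) (r : ℝ) : Set ℝ :=
  {t | t ∈ Ioc 0 (2 * Real.pi) ∧ ∃ ζ ∈ ball c₀ r,
    Tendsto (fun ρ : ℝ => ψ (ρ * exp (t * I))) (𝓝[>] 1) (𝓝 ζ)}

/-- The harmonic measure, up to the factor `2π`. -/
noncomputable def harm (ψ : ℂ → ℂ) (c₀ : ℂ) (r : ℝ) : ℝ := (volume (angles ψ c₀ r)).toReal

/-- The supremum of Green's function of the Mandelbrot set over a disc: Green's function is
`log ‖w‖` at the point `ψ w`. -/
noncomputable def green (ψ : ℂ → ℂ) (c₀ : ℂ) (r : ℝ) : ℝ :=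
  sSup {x | ∃ w : ℂ, 1 < ‖w‖ ∧ ‖ψ w - c₀‖ ≤ r ∧ Real.log ‖w‖ = x}

/-- The derivative at `c₀` of the `n`-th iterate of the critical point as a function of the
parameter. -/
noncomputable def D' (c₀ : ℂ) (n : ℕ) : ℝ := ‖deriv (fun c : ℂ => (fun z : ℂ => z ^ 2 + c)^[n] 0) c₀‖

/-- `g` is proper of degree at most two from the bounded open set `U` onto a set which contains the
closure of `U`. Quadratic-like maps have this property. -/
def PolynomialLike (g : ℂ → ℂ) (U : Set ℂ) : Prop :=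
  IsOpen U ∧ Bornology.IsBounded U ∧ closure U ⊆ g '' U ∧
    (∀ K ⊆ g '' U, IsCompact K → IsCompact {z | z ∈ U ∧ g z ∈ K}) ∧
    ∀ w ∈ g '' U, {z | z ∈ U ∧ g z = w}.encard ≤ 2

/-- `z ↦ z ^ 2 + c` is renormalizable of period `p` with bounds `C`: `U` contains the discs of some
radius `r` about the points `f^[n p] 0`, and its image has diameter at most `C r`. -/
def Bounds (C : ℝ) (c : ℂ) (p : ℕ) : Prop :=
  ∃ (U : Set ℂ) (r : ℝ), PolynomialLike ((fun z : ℂ => z ^ 2 + c)^[p]) U ∧ 0 < r ∧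
    (∀ n : ℕ, ball ((fun z : ℂ => z ^ 2 + c)^[n * p] 0) r ⊆ U) ∧
    ∀ z ∈ U, ∀ z' ∈ U,
      ‖(fun z : ℂ => z ^ 2 + c)^[p] z - (fun z : ℂ => z ^ 2 + c)^[p] z'‖ ≤ C * r

/-- On the disc of radius `ρ` about `c₀` nothing happens up to the time `n`: the first `n` iterates
of the critical point stay in the disc of radius `3`, their derivatives at `c₀` are at most `1 / ρ`,
the harmonic measure and Green's function are smaller than `2 ^ (-n)`, and if `ψ` has a continuous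
extension `F` to the circle and `F ζ = c₀`, then the image of the arc of radius `2 ^ (-n)` about `ζ`
leaves the open disc of radius `ρ`. -/
def Quiet (ψ : ℂ → ℂ) (c₀ : ℂ) (n : ℕ) (ρ : ℝ) : Prop :=
  (∀ c ∈ ball c₀ ρ, ∀ m ≤ n, ‖(fun z : ℂ => z ^ 2 + c)^[m] 0‖ ≤ 3) ∧
  (∀ m ≤ n, D' c₀ m ≤ 1 / ρ) ∧ harm ψ c₀ ρ < (1 / 2) ^ n ∧ green ψ c₀ ρ < (1 / 2) ^ n ∧
  ∀ F : ℂ → ℂ, ContinuousOn F {w : ℂ | 1 ≤ ‖w‖} → (∀ w : ℂ, 1 < ‖w‖ → F w = ψ w) →
    ∀ ζ : ℂ, ‖ζ‖ = 1 → F ζ = c₀ →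
      ∃ ξ : ℂ, ‖ξ‖ = 1 ∧ ‖ξ - ζ‖ ≤ (1 / 2) ^ n ∧ ρ ≤ ‖F ξ - F ζ‖

/-- Rates of the flatness of the Mandelbrot set, with explicit constants, at all parameters which are
renormalizable with bounds `C 0, ..., C K` for a chain of periods `p 0 ∣ ... ∣ p K`. At infinitely
renormalizable parameters with a priori bounds and bounded combinatorics the scale at the time `n` is
at least a power of `n`; for combinatorics with `p (k + 1) ^ (1 - σ) ≤ Q * p k` it is at least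
`exp (-B n ^ σ)`, uniformly in the parameter. -/
theorem result :
    (∃ ψ : ℂ → ℂ, IsExteriorMap mandelbrotSet ψ) ∧
    ∀ ψ : ℂ → ℂ, IsExteriorMap mandelbrotSet ψ →
      (∀ (c : ℂ) (K : ℕ) (p : ℕ → ℕ) (C : ℕ → ℝ), (∀ j ≤ K, 1 ≤ p j ∧ Bounds (C j) c (p j)) →
        (∀ j < K, p j ∣ p (j + 1)) → ∀ n : ℕ,
          Quiet ψ c n (Real.exp (-(30 * (p 0 +
            ∑ j ∈ Finset.range K, (p (j + 1) : ℝ) / p j * Real.log (C j) +
              (1 + (n : ℝ) / p K) * Real.log (C K)))))) ∧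
      (∀ (c : ℂ) (p : ℕ → ℕ) (C Q : ℝ), 1 ≤ p 0 → StrictMono p → (∀ k, p k ∣ p (k + 1)) →
        (∀ k, Bounds C c (p k)) → (∀ k, (p (k + 1) : ℝ) ≤ Q * p k) → ∀ n : ℕ, 2 ≤ n →
          Quiet ψ c n ((n : ℝ) ^ (-(110 * (p 0 + Q * Real.log C))))) ∧
      ∀ (N : ℕ) (C Q σ : ℝ), 0 < σ → σ < 1 → ∃ B : ℝ, ∀ (c : ℂ) (p : ℕ → ℕ), 1 ≤ p 0 → p 0 ≤ N →
        StrictMono p → (∀ k, p k ∣ p (k + 1)) → (∀ k, Bounds C c (p k)) →
        (∀ k, (p (k + 1) : ℝ) ^ (1 - σ) ≤ Q * p k) → ∀ n : ℕ, 1 ≤ n →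
          Quiet ψ c n (Real.exp (-(B * (n : ℝ) ^ σ))) := by
  obtain ⟨β, hβ⟩ := exists_beta (d := 2) le_rfl
  refine ⟨⟨_, exteriorMap_of_beta hβ⟩, ?_⟩
  intro ψ hψ
  -- the bounds in the form of the library
  have hBD : ∀ {C : ℝ} {c : ℂ} {p : ℕ}, Bounds C c p →
      ∃ (r : ℝ) (U : Set ℂ), Pool.Agent.Q259.FR.BD 2 c p C r U := by
    rintro C c p ⟨U, r, hU, hr, hball, hdiam⟩
    exact ⟨r, U, hr, hball, subset_closure.trans hU.2.2.1, hdiam⟩
  have hmem : ∀ {C : ℝ} {c : ℂ} {p : ℕ}, 1 ≤ p → Bounds C c p → c ∈ mandelbrotSet := by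
    rintro C c p hp ⟨U, r, hU, hr, hball, hdiam⟩
    refine Pool.Agent.Y736.RN.ren_mem (d := 2) hp ⟨U, hU, ?_, fun n _ => hball n (mem_ball_self hr)⟩
    have h1 := hball 0 (mem_ball_self hr)
    simpa using h1
  have main : ∀ (c : ℂ) (K : ℕ) (p : ℕ → ℕ) (C : ℕ → ℝ),
      (∀ j ≤ K, 1 ≤ p j ∧ Bounds (C j) c (p j)) → (∀ j < K, p j ∣ p (j + 1)) →
      ∀ (n : ℕ) (ρ : ℝ), 0 < ρ →
        ρ ≤ Real.exp (-Pool.Agent.Q259.FR.TT 30 p C K n) → Quiet ψ c n ρ := by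
    intro c K p C h hdvd n ρ hρ0 hρ
    have hc : c ∈ mandelbrotSet := hmem (h K le_rfl).1 (h K le_rfl).2
    choose! r U hrU using fun j hj => hBD (h j hj).2
    have h15 : (15 : ℝ) * ((2 : ℕ) : ℝ) = 30 := by norm_num
    exact Pool.Agent.Q259.FR.rates (d := 2) le_rfl hψ hc (fun j hj => (h j hj).1) hdvd hrU n hρ0
      (by rw [h15]; exact hρ)
  refine ⟨?_, ?_, ?_⟩
  · intro c K p C h hdvd n
    exact main c K p C h hdvd n _ (Real.exp_pos _) le_rfl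
  · intro c p C Q hp0 hmono hdvd hB hQ n hn
    have hp1 : ∀ k, 1 ≤ p k := fun k => hp0.trans (hmono.monotone (Nat.zero_le k))
    obtain ⟨r, U, hrU⟩ := hBD (hB 0)
    obtain ⟨k, hk⟩ := Pool.Agent.Q259.FR.TT_bdd (A := 30) (by norm_num) hp0 hmono hdvd hrU.two_le
      hQ hn
    have hn0 : (0 : ℝ) < n := by exact_mod_cast (by omega : 0 < n)
    refine main c k p (fun _ => C) (fun j _ => ⟨hp1 j, hB j⟩) (fun j _ => hdvd j) n _
      (Real.rpow_pos_of_pos hn0 _) ?_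
    rw [Real.rpow_def_of_pos hn0]
    apply Real.exp_le_exp.2
    linarith
  · intro N C Q σ hσ0 hσ1
    obtain ⟨B, _, hB⟩ := Pool.Agent.Q259.FR.TT_poly (A := 30) (C := max C 2) (Q := max Q 1) N
      (by norm_num) (lt_max_of_lt_right (by norm_num)) (lt_max_of_lt_right one_pos) hσ0 hσ1
    refine ⟨B, ?_⟩
    intro c p hp0 hpN hmono hdvd hBd hQ n hn
    have hp1 : ∀ k, 1 ≤ p k := fun k => hp0.trans (hmono.monotone (Nat.zero_le k))
    obtain ⟨r, U, hrU⟩ := hBD (hBd 0)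
    have hCmax : max C 2 = C := max_eq_left hrU.two_le
    obtain ⟨k, hk⟩ := hB p hp0 hpN hmono hdvd (fun k => (hQ k).trans
      (mul_le_mul_of_nonneg_right (le_max_left _ _) (Nat.cast_nonneg _))) n hn
    rw [hCmax] at hk
    refine main c k p (fun _ => C) (fun j _ => ⟨hp1 j, hBd j⟩) (fun j _ => hdvd j) n _
      (Real.exp_pos _) ?_
    apply Real.exp_le_exp.2
    linarith

end Pool.Agent.Results.MP_b511e9_an.RatesUnderBounds
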